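import Pool.Agent.Lib.MP_4b3fad_al.Env

namespace Pool.Agent.Results.MP_4b3fad_al.NotInNucleus

universe u

/-- A (nonassociative, nonunital) ring is alternative if `(xx)y = x(xy)` and `(yx)x = y(xx)`. -/
def IsAlternative (A : Type u) [NonUnitalNonAssocRing A] : Prop :=
  (∀ x y : A, (x * x) * y = x * (x * y)) ∧ (∀ x y : A, (y * x) * x = y * (x * x))

/-- The associative center (nucleus) of `A`. -/
def nucleus (A : Type u) [NonUnitalNonAssocRing A] : Set A :=
  {n | ∀ x y : A, (n * x) * y = n * (x * y) ∧ (x * n) * y = x * (n * y) ∧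
    (x * y) * n = x * (y * n)}

/-- The smallest two-sided ideal of `A` containing the set `s`: the intersection of all
two-sided ideals containing `s`. -/
def idealGen (A : Type u) [NonUnitalNonAssocRing A] (s : Set A) : Set A :=
  {m | ∀ I : AddSubgroup A, (∀ a ∈ I, ∀ t : A, a * t ∈ I ∧ t * a ∈ I) → s ⊆ (I : Set A) → m ∈ I}

/-- `g : X → A` exhibits `A` as the free alternative ring on the set `X`. -/
def IsFreeAlternative {X A : Type u} [NonUnitalNonAssocRing A] (g : X → A) : Prop :=
  IsAlternative A ∧ ∀ (B : Type u) [NonUnitalNonAssocRing B], IsAlternative B →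
    ∀ f : X → B, ∃! φ : A →ₙ+* B, ∀ x, φ (g x) = f x

section existence

variable (X : Type u)

/-- The free nonassociative ring. -/
abbrev F : Type u := FreeNonUnitalNonAssocAlgebra ℤ X

/-- The relations `(xx)y = x(xy)` and `(yx)x = y(xx)`. -/
inductive Rel : F X → F X → Prop
  | left (x y : F X) : Rel ((x * x) * y) (x * (x * y))
  | right (x y : F X) : Rel ((y * x) * x) (y * (x * x))

/-- The congruence generated by the relations. -/
noncomputable def con : RingCon (F X) := ringConGen (Rel X)

/-- The free alternative ring on `X`. -/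
abbrev FA : Type u := (con X).Quotient

variable {X}

theorem con_of_rel {a b : F X} (h : Rel X a b) : ((a : FA X)) = (b : FA X) :=
  (con X).eq.2 (RingConGen.Rel.of _ _ h)

theorem FA_isAlternative : IsAlternative (FA X) := by
  constructor
  · intro x y
    induction x using Quotient.inductionOn
    induction y using Quotient.inductionOn
    exact con_of_rel (Rel.left _ _)
  · intro x y
    induction x using Quotient.inductionOn
    induction y using Quotient.inductionOn
    exact con_of_rel (Rel.right _ _)

/-- the kernel congruence of a homomorphism -/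
def kerCon {B : Type u} [NonUnitalNonAssocRing B] (φ : F X →ₙ+* B) : RingCon (F X) where
  r a b := φ a = φ b
  iseqv := ⟨fun _ => rfl, fun h => h.symm, fun h h' => h.trans h'⟩
  mul' := by
    intro a b c d h h'
    rw [map_mul, map_mul, h, h']
  add' := by
    intro a b c d h h'
    rw [map_add, map_add, h, h']

theorem con_le {B : Type u} [NonUnitalNonAssocRing B] (hB : IsAlternative B) (φ : F X →ₙ+* B) :
    con X ≤ kerCon φ := by
  apply RingCon.ringConGen_le.2
  intro a b h
  change φ a = φ b
  cases h with
  | left x y => simp only [map_mul]; exact hB.1 _ _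
  | right x y => simp only [map_mul]; exact hB.2 _ _

/-- the induced homomorphism -/
noncomputable def liftFA {B : Type u} [NonUnitalNonAssocRing B] (hB : IsAlternative B) (φ : F X →ₙ+* B) :
    FA X →ₙ+* B where
  toFun := Quotient.lift φ (fun a b h => con_le hB φ h)
  map_zero' := map_zero φ
  map_add' := by
    intro x y
    induction x using Quotient.inductionOn
    induction y using Quotient.inductionOn
    exact map_add φ _ _
  map_mul' := by
    intro x y
    induction x using Quotient.inductionOn
    induction y using Quotient.inductionOn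
    exact map_mul φ _ _

/-- a ring homomorphism as a `ℤ`-algebra homomorphism -/
def toAlg {B : Type u} [NonUnitalNonAssocRing B] (φ : F X →ₙ+* B) : F X →ₙₐ[ℤ] B :=
  { φ with map_smul' := fun n x => map_zsmul φ n x }

/-- the generators -/
noncomputable def gen (x : X) : FA X := ((FreeNonUnitalNonAssocAlgebra.of ℤ x : F X) : FA X)

/-- the quotient map -/
noncomputable def quo : F X →ₙ+* FA X where
  toFun a := (a : FA X)
  map_zero' := rfl
  map_add' _ _ := rfl
  map_mul' _ _ := rfl

theorem gen_isFree : IsFreeAlternative (gen (X := X)) := by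
  refine ⟨FA_isAlternative, ?_⟩
  intro B _ hB f
  let φ₀ : F X →ₙₐ[ℤ] B := FreeNonUnitalNonAssocAlgebra.lift ℤ f
  let φ : F X →ₙ+* B :=
    { toFun := φ₀
      map_zero' := map_zero φ₀
      map_add' := map_add φ₀
      map_mul' := map_mul φ₀ }
  refine ⟨liftFA hB φ, ?_, ?_⟩
  · intro x
    change φ₀ (FreeNonUnitalNonAssocAlgebra.of ℤ x) = f x
    exact FreeNonUnitalNonAssocAlgebra.lift_of_apply ℤ f x
  · intro ψ hψ
    have e : toAlg (ψ.comp quo) = φ₀ := by
      apply FreeNonUnitalNonAssocAlgebra.hom_ext
      intro x
      change ψ (gen x) = φ₀ (FreeNonUnitalNonAssocAlgebra.of ℤ x)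
      rw [hψ x]
      exact (FreeNonUnitalNonAssocAlgebra.lift_of_apply ℤ f x).symm
    ext a
    induction a using Quotient.inductionOn
    rename_i a
    exact congrArg (fun θ : F X →ₙₐ[ℤ] B => θ a) e

end existence

open MP4b3fad

theorem isAlt_of {A : Type u} [NonUnitalNonAssocRing A] (h : IsAlternative A) : IsAlt A where
  left x y := by rw [asr, h.1, sub_self]
  right x y := by rw [asr, h.2, sub_self]

theorem isAlternative_of {A : Type u} [NonUnitalNonAssocRing A] (h : IsAlt A) :
    IsAlternative A :=
  ⟨fun x y => sub_eq_zero.1 (h.left x y), fun x y => sub_eq_zero.1 (h.right x y)⟩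

theorem mem_nucleus {A : Type u} [NonUnitalNonAssocRing A] (h : IsAlternative A) {n : A}
    (hn : ∀ x y : A, asr n x y = 0) : n ∈ nucleus A := by
  have h' := isAlt_of h
  intro x y
  refine ⟨sub_eq_zero.1 (hn x y), sub_eq_zero.1 ?_, sub_eq_zero.1 ?_⟩
  · change asr x n y = 0
    rw [h'.s12, hn, neg_zero]
  · change asr x y n = 0
    rw [h'.cyc, h'.cyc, hn]

/-- The homomorphism `ULift B → B`. -/
def downHom (B : Type) [NonUnitalNonAssocRing B] : ULift.{u} B →ₙ+* B where
  toFun := ULift.down
  map_zero' := rfl
  map_add' _ _ := rfl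
  map_mul' _ _ := rfl

theorem result (X : Type u) (hX : Nonempty (Fin 8 ↪ X)) :
    (∃ (A : Type u) (_ : NonUnitalNonAssocRing A) (g : X → A), IsFreeAlternative g) ∧
    ∀ (A : Type u) [NonUnitalNonAssocRing A] (g : X → A), IsFreeAlternative g →
      ∃ m ∈ idealGen A {c | ∃ n ∈ nucleus A, ∃ t : A, c = n * t - t * n}, m ∉ nucleus A := by
  constructor
  · exact ⟨FA X, inferInstance, gen, gen_isFree⟩
  · intro A _ g hg
    obtain ⟨j⟩ := hX
    have hA := isAlt_of hg.1
    let a : Fin 8 → A := fun i => g (j i)
    let n : A := (24 : ℤ) • nR (a 0) (a 1) (a 2) (a 3) (a 4) (a 0)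
    have hn : n ∈ nucleus A := mem_nucleus hg.1 (fun x y => hA.nuclear _ _ _ _ _ _ _ _)
    refine ⟨(n * a 0 - a 0 * n) * a 5, ?_, ?_⟩
    · intro I hI hs
      exact (hI _ (hs ⟨n, hn, a 0, rfl⟩) (a 5)).1
    · intro hm
      have e : asr ((n * a 0 - a 0 * n) * a 5) (a 6) (a 7) = 0 :=
        sub_eq_zero.2 (hm (a 6) (a 7)).1
      -- a homomorphism to the Grassmann envelope
      obtain ⟨B, _, q, hB, hq⟩ := Q_exists.{u}
      have hQ : IsAlternative (ULift.{u} B) := by
        have h := isAlternative_of hB
        constructor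
        · intro x y
          exact congrArg ULift.up (h.1 x.down y.down)
        · intro x y
          exact congrArg ULift.up (h.2 x.down y.down)
      classical
      obtain ⟨φ, hφ, -⟩ := hg.2 (ULift.{u} B) hQ
        (fun x => if h : ∃ i, j i = x then ULift.up (q h.choose) else 0)
      refine hq A ((downHom B).comp φ) a ?_ e
      intro i
      have h : ∃ k, j k = j i := ⟨i, rfl⟩
      have h2 : h.choose = i := j.injective h.choose_spec
      have h3 := hφ (j i)
      simp only [dif_pos h, h2] at h3
      exact congrArg ULift.down h3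

end Pool.Agent.Results.MP_4b3fad_al.NotInNucleus
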